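import Mathlib
import Pool.Agent.Run7.h133.CubeF

/-!
Every 2-colouring of the Euclidean plane has a colour class containing a congruent copy of a given
triangle, provided the triangle has an angle of 45 or of 135 degrees.
-/

open EuclideanGeometry

theorem Pool.Agent.Results.MP_819c64_co.FortyFive.result
    (C : Set (EuclideanSpace ℝ (Fin 2))) (p q r : EuclideanSpace ℝ (Fin 2)) (hq : q ≠ p)
    (h : ∠ q p r = Real.pi / 4 ∨ ∠ q p r = 3 * Real.pi / 4) :
    ∃ D : Set (EuclideanSpace ℝ (Fin 2)), (D = C ∨ D = Cᶜ) ∧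
      ∃ φ : EuclideanSpace ℝ (Fin 2) ≃ᵢ EuclideanSpace ℝ (Fin 2),
        φ p ∈ D ∧ φ q ∈ D ∧ φ r ∈ D := by
  have key : Run7.h133.Cube.Occ p q r C ∨ Run7.h133.Cube.Occ p q r Cᶜ := by
    rcases h with h | h
    · refine Run7.h133.Cube.occ_of_bal Run7.h133.Cube.bal4 (by decide) (by norm_num)
        (m := 1) (by decide) C p q r hq ?_
      rw [h]; push_cast; ring
    · refine Run7.h133.Cube.occ_of_bal Run7.h133.Cube.bal4 (by decide) (by norm_num)
        (m := 3) (by decide) C p q r hq ?_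
      rw [h]; push_cast; ring
  rcases key with h1 | h1
  · exact ⟨C, Or.inl rfl, h1⟩
  · exact ⟨Cᶜ, Or.inr rfl, h1⟩
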