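import Mathlib
import Pool.Agent.Run7.h133.CubeD

/-!
In every 2-colouring of the Euclidean plane, one colour class contains a congruent copy of every
triangle that has an angle of 30, 90 or 150 degrees, and also of every triangle in which the height
on some side is half of that side.
-/

open EuclideanGeometry

theorem Pool.Agent.Results.MP_819c64_co.UniformTriangles.result
    (C : Set (EuclideanSpace ℝ (Fin 2))) :
    ∃ D : Set (EuclideanSpace ℝ (Fin 2)), (D = C ∨ D = Cᶜ) ∧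
      (∀ p q r : EuclideanSpace ℝ (Fin 2), q ≠ p → r ≠ p →
        (∠ q p r = Real.pi / 6 ∨ ∠ q p r = Real.pi / 2 ∨ ∠ q p r = 5 * Real.pi / 6) →
        ∃ φ : EuclideanSpace ℝ (Fin 2) ≃ᵢ EuclideanSpace ℝ (Fin 2),
          φ p ∈ D ∧ φ q ∈ D ∧ φ r ∈ D) ∧
      (∀ p q r s : EuclideanSpace ℝ (Fin 2), p ≠ q → s ∈ line[ℝ, p, q] →
        inner ℝ (r - s) (q - p) = 0 → dist r s = dist p q / 2 →
        ∃ φ : EuclideanSpace ℝ (Fin 2) ≃ᵢ EuclideanSpace ℝ (Fin 2),
          φ p ∈ D ∧ φ q ∈ D ∧ φ r ∈ D) :=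
  Run7.h133.Cube.main C
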